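import Pool.Agent.P.MP_def758_al.Main

open Pool.Agent.P.MP_def758_al LieAlgebra.SpecialLinear

attribute [local instance 100] LieRing.ofAssociativeRing

theorem Pool.Agent.Results.MP_def758_al.SquareNotStrange.result (k : Type*) [Field k]
    [IsAlgClosed k] [CharZero k] :
    ∃ (n : ℕ) (e f : sl (Fin n) k), 2 ≤ n ∧ IsNilpotent (e : Matrix (Fin n) (Fin n) k) ∧
      (f : Matrix (Fin n) (Fin n) k) = (e : Matrix (Fin n) (Fin n) k) ^ 2 ∧
      Strange e ∧ ¬ Strange f := main k
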